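import Pool.Agent.Lib.MP_24b811_al.FpMain
import Pool.Agent.Lib.MP_24b811_al.FpEmb
import Pool.Agent.Lib.MP_24b811_al.FpZn

namespace Pool.Agent.Variants.MP_24b811_al.FinitelyPresentedF

open Pool.Agent.Lib.MP_24b811_al

universe u

/-- A finitely presented subgroup of F contains a copy of F, or it is free abelian of finite rank
and isomorphic to a diagram group. -/
theorem result (H : Subgroup ThompsonF) (hH : Group.IsFinitelyPresented H) :
    (∃ f : ThompsonF →* H, Function.Injective f) ∨
    ((∃ n : ℕ, Nonempty (H ≃* Multiplicative (Fin n → ℤ))) ∧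
      ∃ (S : Type u) (P : SemigroupPresentation S) (w : SqVertex P),
        Nonempty (H ≃* DiagramGroup P w)) := by
  refine or_iff_not_imp_left.2 fun hF => ?_
  have hfg : Group.FG H := by
    obtain ⟨n, φ, hφ, -⟩ := hH
    exact Group.fg_of_surjective hφ
  obtain ⟨e, he⟩ := Fp.exists_F_embed
  exact Fp.abelian_case H hfg (Fp.comm_of_fp H (fun f hf => hF ⟨f.comp e, hf.comp he⟩)
    ((Group.fg_iff_subgroup_fg H).1 hfg))

end Pool.Agent.Variants.MP_24b811_al.FinitelyPresentedF
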