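import Pool.Agent.Lib.MP_24b811_al.GcSquier
import Pool.Agent.Lib.MP_24b811_al.GcSlope

namespace Pool.Agent.Variants.MP_24b811_al.GapClosed

open Pool.Agent.Lib.MP_24b811_al

universe u

/-- A locally moving subgroup of F that is isomorphic to a diagram group contains, with every
element `t` that is the identity on an interval `[a, b]`, the map equal to `t` on `[0, a]` and to
the identity on `[a, 1]`. -/
theorem result (H : Subgroup ThompsonF)
    (hH : ∀ c x d : unitInterval, c < x → x < d →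
      ∃ h ∈ H, (∀ y : unitInterval, y ≤ c ∨ d ≤ y → h.1 y = y) ∧ h.1 x ≠ x)
    (S : Type u) (P : SemigroupPresentation S) (w : SqVertex P) (e : H ≃* DiagramGroup P w)
    (t : ThompsonF) (ht : t ∈ H) (a b : unitInterval) (hab : a < b)
    (hid : ∀ y : unitInterval, a ≤ y → y ≤ b → t.1 y = y) :
    ∃ s ∈ H, ∀ y : unitInterval, (y ≤ a → s.1 y = t.1 y) ∧ (a ≤ y → s.1 y = y) := by
  obtain ⟨s, hs⟩ := (Gc.lmF.sub H hH).gap (Gc.threeProp_of_equiv e) (Gc.germF.sub H) hab
    (τ := ⟨t, ht⟩) hid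
  exact ⟨s.1, s.2, hs⟩

end Pool.Agent.Variants.MP_24b811_al.GapClosed
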