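import Pool.Agent.Lib.MP_24b811_al.GcSquier
import Pool.Agent.Lib.MP_24b811_al.GcRect

namespace Pool.Agent.Variants.MP_24b811_al.Rectangular

open Pool.Agent.Lib.MP_24b811_al

universe u

/-- Let `K` be a locally moving subgroup of F and let `H` be a subgroup of `K` that contains a
nontrivial normal subgroup of `K`. If `H` is isomorphic to a diagram group, then there are integers
`a, b` such that an element of `K` with slopes `2 ^ p` at `0` and `2 ^ q` at `1` lies in `H` exactly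
when `a` divides `p` and `b` divides `q`. -/
theorem result (K : Subgroup ThompsonF)
    (hK : ∀ c x d : unitInterval, c < x → x < d →
      ∃ h ∈ K, (∀ y : unitInterval, y ≤ c ∨ d ≤ y → h.1 y = y) ∧ h.1 x ≠ x)
    (H N : Subgroup K) (hN : N.Normal) (hne : N ≠ ⊥) (hle : N ≤ H)
    (S : Type u) (P : SemigroupPresentation S) (w : SqVertex P) (e : H ≃* DiagramGroup P w) :
    ∃ a b : ℤ, ∀ (f : K) (p q : ℤ),
      (∃ ε : ℝ, 0 < ε ∧ ∀ x : unitInterval, ((x : ℝ) ≤ ε → (f.1.1 x : ℝ) = 2 ^ p * x) ∧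
        (1 - ε ≤ x → 1 - (f.1.1 x : ℝ) = 2 ^ q * (1 - x))) →
      (f ∈ H ↔ a ∣ p ∧ b ∣ q) := by
  obtain ⟨a, b, h⟩ := Gc.rect (Gc.lmF.sub K hK) hne hle (Gc.threeProp_of_equiv e)
  refine ⟨a, b, fun f p q ⟨ε, h1, h2⟩ => ?_⟩
  obtain ⟨k1, k2⟩ := Gc.sl_of_eps h1 h2
  rw [h, k1, k2]

end Pool.Agent.Variants.MP_24b811_al.Rectangular
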