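import Pool.Agent.Lib.MP_24b811_al.GcSquier
import Pool.Agent.Lib.MP_24b811_al.GcJump

namespace Pool.Agent.Variants.MP_24b811_al.SimpleSubgroup

open Pool.Agent.Lib.MP_24b811_al

universe u

/-- Thompson's group F has a simple subgroup that is not isomorphic to any diagram group. -/
theorem result :
    ∃ H : Subgroup ThompsonF, IsSimpleGroup H ∧
      ∀ (S : Type u) (P : SemigroupPresentation S) (w : SqVertex P),
        IsEmpty (H ≃* DiagramGroup P w) := by
  have e := (commutator Gc.cstab).equivMapOfInjective _ Gc.cstab.subtype_injective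
  have := Gc.simple_cstab
  exact ⟨_, e.symm.isSimpleGroup,
    fun S P w => ⟨fun e' => Gc.not_three (Gc.threeProp_of_equiv (e.trans e'))⟩⟩

end Pool.Agent.Variants.MP_24b811_al.SimpleSubgroup
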